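import Pool.Agent.L0h29.AL.ArtDefs2

/-!
# Project AL, part 2: BIG
-/

set_option autoImplicit false

namespace Pool.Agent.L0h55.AL

open Pool.Agent.K7.H20.AW Pool.Agent.K7.H87.FJ6 Pool.Agent.L0h29.AL CoxeterSystem

section words

variable {B : Type*} {M : CoxeterMatrix B}

theorem lval_nil : lval M [] = 1 := by simp [lval]

theorem lval_append (u v : List (B × Bool)) : lval M (u ++ v) = lval M u * lval M v := by
  simp [lval]

theorem lval_cons (p : B × Bool) (v : List (B × Bool)) :
    lval M (p :: v) = (if p.2 then g M p.1 else (g M p.1)⁻¹) * lval M v := by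
  simp [lval]

theorem lval_inw (u : List (B × Bool)) : lval M (inw u) = (lval M u)⁻¹ := by
  induction u with
  | nil => simp [inw, lval]
  | cons p u ih =>
    have h : inw (p :: u) = inw u ++ [(p.1, !p.2)] := by simp [inw]
    have e1 : lval M (p :: u) = (if p.2 then g M p.1 else (g M p.1)⁻¹) * lval M u :=
      lval_cons p u
    rw [h, lval_append, ih, e1, mul_inv_rev]
    congr 1
    rw [lval_cons, lval_nil, mul_one]
    rcases p with ⟨b, e⟩
    cases e <;> simp

theorem length_inw (u : List (B × Bool)) : (inw u).length = u.length := by simp [inw]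

theorem length_aw (m : ℕ) : ∀ i j : B, (aw m i j).length = m := by
  induction m with
  | zero => intro i j; rfl
  | succ m ih => intro i j; simp [aw, ih]

theorem lval_aw (m : ℕ) : ∀ i j : B, lval M (aw m i j) = altProd m (g M i) (g M j) := by
  induction m with
  | zero => intro i j; simp [aw, altProd, lval]
  | succ m ih => intro i j; rw [aw, lval_cons, ih, altProd]; simp

theorem length_rw' (m : ℕ) (i j : B) (b : Bool) : (rw' m i j b).length = 2 * m := by
  unfold rw'
  split_ifs <;> rw [List.length_append, length_inw, length_aw, length_aw] <;> ring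

theorem lval_rw' (m : ℕ) (i j : B) (b : Bool) : lval M (rw' m i j b) =
    if b then altProd m (g M i) (g M j) * (altProd m (g M j) (g M i))⁻¹ else
      (altProd m (g M i) (g M j) * (altProd m (g M j) (g M i))⁻¹)⁻¹ := by
  unfold rw'
  split_ifs
  · rw [lval_append, lval_inw, lval_aw, lval_aw]
  · rw [lval_append, lval_inw, lval_aw, lval_aw, mul_inv_rev, inv_inv]

theorem exw_append (lab : B → B → ℕ) (c d : List (List (B × Bool) × B × B × Bool)) :
    exw lab (c ++ d) = exw lab c ++ exw lab d := by
  simp [exw]

theorem exw_cons (lab : B → B → ℕ) (p : List (B × Bool) × B × B × Bool)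
    (d : List (List (B × Bool) × B × B × Bool)) :
    exw lab (p :: d) = p.1 ++ rw' (lab p.2.1 p.2.2.1) p.2.1 p.2.2.1 p.2.2.2 ++ inw p.1 ++
      exw lab d := by
  simp [exw]

theorem length_exw (lab : B → B → ℕ) (x y : ℕ) (hlab : ∀ i j, lab i j ≤ x)
    (c : List (List (B × Bool) × B × B × Bool)) (hc : ∀ p ∈ c, p.1.length ≤ y) :
    (exw lab c).length ≤ c.length * (2 * y + 2 * x) := by
  induction c with
  | nil => simp [exw]
  | cons p c ih =>
    rw [exw_cons, List.length_append, List.length_append, List.length_append, length_inw,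
      length_rw', List.length_cons, add_mul, one_mul]
    have h1 := ih (fun q hq => hc q (List.mem_cons_of_mem _ hq))
    have h2 := hc p List.mem_cons_self
    have h3 := hlab p.2.1 p.2.2.1
    omega

end words

section hom

variable {n : ℕ} (M : CoxeterMatrix (Fin n))

theorem tr_apply (i j : Fin n) : tr M i j = if i = j then 1 else if 100 ≤ M i j then 0 else M i j :=
  rfl

/-- the map which restores the labels -/
def tq : Art (tr M) →* Art M :=
  Sh.lift (fun b => g M b) (by
    intro i j
    rw [tr_apply]
    by_cases hij : i = j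
    · rw [hij]
    · rw [if_neg hij]
      split_ifs
      · rw [Pool.Agent.Helper741.alt_zero, Pool.Agent.Helper741.alt_zero]
      · exact Sh.rel i j) (fun _ => pow_zero _)

theorem tq_g (b : Fin n) : tq M (g (tr M) b) = g M b := Sh.lift_gen _ _ _ _

theorem tq_lval (w : List (Fin n × Bool)) : tq M (lval (tr M) w) = lval M w := by
  induction w with
  | nil => rw [lval_nil, lval_nil, map_one]
  | cons p w ih =>
    rw [lval_cons, lval_cons, map_mul, ih]
    congr 1
    split_ifs
    · exact tq_g M _
    · rw [map_inv, tq_g]

theorem lval_exw_one (c : List (List (Fin n × Bool) × Fin n × Fin n × Bool)) :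
    lval M (exw (fun i j => M i j) c) = 1 := by
  induction c with
  | nil => simp [exw, lval]
  | cons p c ih =>
    rw [exw_cons, lval_append, ih, mul_one, lval_append, lval_append, lval_inw, lval_rw']
    have h : altProd (M p.2.1 p.2.2.1) (g M p.2.1) (g M p.2.2.1) *
        (altProd (M p.2.1 p.2.2.1) (g M p.2.2.1) (g M p.2.1))⁻¹ = 1 := by
      rw [altProd_eq, altProd_eq]
      exact mul_inv_eq_one.2 (Sh.rel p.2.1 p.2.2.1)
    rw [h]
    simp

end hom

section erase

variable {n : ℕ}

/-- the labels of the pairs in the list are replaced by infinity -/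
def erl (M : CoxeterMatrix (Fin n)) : List (Fin n × Fin n) → CoxeterMatrix (Fin n)
  | [] => M
  | p :: l => er (erl M l) p.1 p.2

theorem er_apply (M : CoxeterMatrix (Fin n)) (s t i j : Fin n) : er M s t i j =
    if i = j then 1 else if (i = s ∧ j = t) ∨ (i = t ∧ j = s) then 0 else M i j := rfl

theorem erl_apply (M : CoxeterMatrix (Fin n)) (l : List (Fin n × Fin n)) (i j : Fin n) :
    erl M l i j = if i = j then 1 else if (i, j) ∈ l ∨ (j, i) ∈ l then 0 else M i j := by
  induction l with
  | nil =>
    by_cases h : i = j
    · rw [if_pos h, h]; exact M.diagonal j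
    · rw [if_neg h]; simp [erl]
  | cons p l ih =>
    rw [erl, er_apply]
    by_cases h : i = j
    · rw [if_pos h, if_pos h]
    · rw [if_neg h, if_neg h, ih, if_neg h]
      rcases p with ⟨s, t⟩
      simp only [List.mem_cons, Prod.mk.injEq]
      by_cases h1 : (i = s ∧ j = t) ∨ (i = t ∧ j = s)
      · rw [if_pos h1, if_pos]
        tauto
      · rw [if_neg h1]
        by_cases h2 : (i, j) ∈ l ∨ (j, i) ∈ l
        · rw [if_pos h2, if_pos]
          tauto
        · rw [if_neg h2, if_neg]
          tauto

theorem cox_ext {M M' : CoxeterMatrix (Fin n)} (h : ∀ i j, M i j = M' i j) : M = M' := by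
  cases M
  cases M'
  congr
  ext i j
  exact h i j

/-- the growth in one step -/
def FF (x : ℕ) : ℕ := x + ph x * (2 * ph x + 2 * x)

theorem le_FF (x : ℕ) : x ≤ FF x := Nat.le_add_right _ _

theorem ph_le_FF (x : ℕ) : x + ph x ≤ FF x ∧ ph x ≤ FF x := by
  unfold FF
  rcases Nat.eq_zero_or_pos (ph x) with h | h
  · rw [h]; omega
  · have h1 : ph x * 1 ≤ ph x * (2 * ph x + 2 * x) := Nat.mul_le_mul_left _ (by omega)
    omega

theorem iter_mono (N : ℕ) {k k' : ℕ} (h : k ≤ k') : FF^[k] N ≤ FF^[k'] N := by
  induction k', h using Nat.le_induction with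
  | base => exact le_rfl
  | succ m _ ih => rw [Function.iterate_succ_apply']; exact ih.trans (le_FF _)

theorem cj_inv {G : Type*} [Group G] (r : G) (c : List (G × Bool)) :
    (cj r c)⁻¹ = cj r (c.map fun p => (p.1, !p.2)).reverse := by
  induction c with
  | nil => simp [cj]
  | cons p c ih =>
    have h1 : cj r (p :: c) = p.1 * (if p.2 then r else r⁻¹) * p.1⁻¹ * cj r c := by simp [cj]
    rw [h1, mul_inv_rev, ih, List.map_cons, List.reverse_cons]
    have h2 : ∀ c d : List (G × Bool), cj r (c ++ d) = cj r c * cj r d := by
      intro c d; simp [cj]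
    rw [h2]
    congr 1
    rcases p with ⟨x, b⟩
    cases b <;> simp [cj, mul_assoc]

theorem step (hC : S_CMB.{0}) (M : CoxeterMatrix (Fin n)) (N : ℕ) (hM : ∀ i j, M i j ≤ N)
    (w : List (Fin n × Bool)) (hw : w.length ≤ N) (hw1 : lval M w = 1) :
    ∀ l : List (Fin n × Fin n), l.Nodup → (∀ p ∈ l, p.1 < p.2 ∧ 100 ≤ M p.1 p.2) →
      ∃ c : List (List (Fin n × Bool) × Fin n × Fin n × Bool), c.length ≤ FF^[l.length] N ∧
        (∀ p ∈ c, p.1.length ≤ FF^[l.length] N) ∧
        (w ++ exw (fun i j => M i j) c).length ≤ FF^[l.length] N ∧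
        lval (erl M l) (w ++ exw (fun i j => M i j) c) = 1 := by
  intro l
  induction l with
  | nil =>
    intro _ _
    refine ⟨[], by simp, by simp, ?_, ?_⟩
    · simp [exw]; exact hw
    · simp [exw, erl]; exact hw1
  | cons p l ih =>
    intro hnd hl
    rw [List.nodup_cons] at hnd
    obtain ⟨c, hc1, hc2, hc3, hc4⟩ := ih hnd.2 (fun q hq => hl q (List.mem_cons_of_mem _ hq))
    obtain ⟨hp1, hp2⟩ := hl p List.mem_cons_self
    rcases p with ⟨s, t⟩
    simp only at hp1 hp2
    have hst : s ≠ t := ne_of_lt hp1
    have hlab : erl M l s t = M s t := by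
      rw [erl_apply, if_neg hst, if_neg]
      rintro (h | h)
      · exact hnd.1 h
      · have := (hl (t, s) (List.mem_cons_of_mem _ h)).1
        simp only at this
        exact absurd hp1 (not_lt.2 this.le)
    set x := FF^[l.length] N with hx
    have hNx : N ≤ x := by
      have := iter_mono N (Nat.zero_le l.length)
      simpa using this
    obtain ⟨c', hd1, hd2, hd3⟩ := hC (Fin n) (erl M l) s t hst (by rw [hlab]; exact hp2)
      (w ++ exw (fun i j => M i j) c) x hc3 (by rw [hlab]; exact (hM s t).trans hNx) hc4
    have hiter : FF^[(((s, t) :: l) : List (Fin n × Fin n)).length] N = FF x := by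
      rw [List.length_cons, Function.iterate_succ_apply']
    rw [hiter]
    set d : List (List (Fin n × Bool) × Fin n × Fin n × Bool) :=
      (c'.map fun q => (q.1, s, t, !q.2)).reverse with hd
    have hdlen : d.length = c'.length := by rw [hd]; simp
    have hdle : ∀ q ∈ d, q.1.length ≤ ph x := by
      intro q hq
      rw [hd, List.mem_reverse, List.mem_map] at hq
      obtain ⟨a, ha, rfl⟩ := hq
      exact hd2 a ha
    have hval : lval (erl M ((s, t) :: l)) (exw (fun i j => M i j) d) =
        (cj (rl (erl M l) s t) (c'.map fun p => (lval (er (erl M l) s t) p.1, p.2)))⁻¹ := by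
      rw [cj_inv, List.map_map, ← List.map_reverse, hd, ← List.map_reverse]
      induction c'.reverse with
      | nil =>
        simp only [List.map_nil, exw, List.flatMap_nil, lval, List.prod_nil, cj]
        rfl
      | cons q c' ih2 =>
        rw [List.map_cons, exw_cons, lval_append, ih2]
        have h1 : ∀ (r : Art (er (erl M l) s t)) (a : Art (er (erl M l) s t) × Bool) c,
            cj r (a :: c) = a.1 * (if a.2 then r else r⁻¹) * a.1⁻¹ * cj r c := by
          intro r a c; simp [cj]
        rw [List.map_cons, h1]
        congr 1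
        rw [lval_append, lval_append, lval_inw, lval_rw']
        have h2 : altProd (M s t) (g (erl M ((s, t) :: l)) s) (g (erl M ((s, t) :: l)) t) *
            (altProd (M s t) (g (erl M ((s, t) :: l)) t) (g (erl M ((s, t) :: l)) s))⁻¹ =
            rl (erl M l) s t := by
          unfold rl
          rw [hlab]
          rfl
        simp only [Function.comp]
        rw [h2]
        rfl
    refine ⟨c ++ d, ?_, ?_, ?_, ?_⟩
    · rw [List.length_append, hdlen]
      exact (Nat.add_le_add hc1 hd1).trans (ph_le_FF x).1
    · intro q hq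
      rw [List.mem_append] at hq
      rcases hq with hq | hq
      · exact (hc2 q hq).trans (le_FF x)
      · exact (hdle q hq).trans (ph_le_FF x).2
    · rw [exw_append, ← List.append_assoc, List.length_append]
      have h1 := length_exw (fun i j => M i j) x (ph x) (fun i j => (hM i j).trans hNx) d hdle
      have h2 : d.length * (2 * ph x + 2 * x) ≤ ph x * (2 * ph x + 2 * x) :=
        Nat.mul_le_mul_right _ (by rw [hdlen]; exact hd1)
      unfold FF
      omega
    · rw [exw_append, ← List.append_assoc, lval_append, hval]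
      change lval (er (erl M l) s t) _ * _ = 1
      rw [hd3, mul_inv_cancel]

end erase

theorem BIG (hC : S_CMB.{0}) : S_BIG := by
  intro n M w N hn hw hM
  constructor
  · intro h1
    set T : Finset (Fin n × Fin n) := Finset.univ.filter (fun p => p.1 < p.2 ∧ 100 ≤ M p.1 p.2)
      with hT
    have hmem : ∀ p, p ∈ T.toList ↔ p.1 < p.2 ∧ 100 ≤ M p.1 p.2 := by
      intro p
      rw [Finset.mem_toList, hT, Finset.mem_filter]
      simp
    obtain ⟨c, hc1, hc2, _, hc4⟩ := step hC M N hM w hw h1 T.toList T.nodup_toList
      (fun p hp => (hmem p).1 hp)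
    have hlen : T.toList.length ≤ N * N := by
      rw [Finset.length_toList]
      calc T.card ≤ (Finset.univ : Finset (Fin n × Fin n)).card := Finset.card_filter_le _ _
        _ = n * n := by simp
        _ ≤ N * N := Nat.mul_le_mul hn hn
    have hle : FF^[T.toList.length] N ≤ ps N := iter_mono N hlen
    have htr : erl M T.toList = tr M := by
      apply cox_ext
      intro i j
      rw [erl_apply, tr_apply]
      simp only [hmem]
      by_cases h : i = j
      · rw [if_pos h, if_pos h]
      · rw [if_neg h, if_neg h]
        have hs : M j i = M i j := M.symmetric j i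
        by_cases h2 : 100 ≤ M i j
        · rw [if_pos h2, if_pos]
          rcases lt_or_gt_of_ne h with h3 | h3
          · exact Or.inl ⟨h3, h2⟩
          · exact Or.inr ⟨h3, by rw [hs]; exact h2⟩
        · rw [if_neg h2, if_neg]
          rintro (h3 | h3)
          · exact h2 h3.2
          · exact h2 (by rw [← hs]; exact h3.2)
    rw [htr] at hc4
    exact ⟨c, hc1.trans hle, fun p hp => (hc2 p hp).trans hle, hc4⟩
  · rintro ⟨c, _, _, h1⟩
    have h2 := congrArg (tq M) h1
    rw [tq_lval, map_one, lval_append, lval_exw_one, mul_one] at h2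
    exact h2

end Pool.Agent.L0h55.AL
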